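import Pool.Agent.FRE.Stmts

/-!
# Squad FRE, row LAT (helper86): a ball of a discrete group contains a large proper progression
-/

set_option autoImplicit false

namespace Pool.Agent.FRE.H86

open Pool.Agent.FRE Module

/-- the quotient of `E` by the line `ℝ v` -/
theorem exists_quot (E : Type) [NormedAddCommGroup E] [NormedSpace ℝ E] [FiniteDimensional ℝ E]
    (v : E) (hv : v ≠ 0) :
    ∃ (E' : Type) (_ : NormedAddCommGroup E') (_ : NormedSpace ℝ E') (_ : FiniteDimensional ℝ E')
      (π : E →ₗ[ℝ] E'), (∀ x, π x = 0 ↔ ∃ s : ℝ, x = s • v) ∧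
      (∀ x' : E', ∀ ε : ℝ, 0 < ε → ∃ m, π m = x' ∧ ‖m‖ < ‖x'‖ + ε) ∧
      (∀ x, ‖π x‖ ≤ ‖x‖) ∧ finrank ℝ E' + 1 = finrank ℝ E := by
  have h1 := Submodule.finrank_quotient_add_finrank (Submodule.span ℝ {v})
  rw [finrank_span_singleton hv] at h1
  have hcl : IsClosed ((Submodule.span ℝ {v} : Submodule ℝ E) : Set E) :=
    Submodule.closed_of_finiteDimensional _
  refine ⟨E ⧸ (Submodule.span ℝ {v}), inferInstance, inferInstance, inferInstance,
    (Submodule.span ℝ {v}).mkQ, ?_, ?_, ?_, h1⟩
  · intro x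
    rw [Submodule.mkQ_apply, Submodule.Quotient.mk_eq_zero, Submodule.mem_span_singleton]
    constructor
    · rintro ⟨s, h⟩
      exact ⟨s, h.symm⟩
    · rintro ⟨s, h⟩
      exact ⟨s, h.symm⟩
  · intro x' ε hε
    exact Submodule.Quotient.norm_mk_lt x' hε
  · intro x
    exact Submodule.Quotient.norm_mk_le _ x

/-- the trivial progression -/
theorem trivial_case {E : Type} [NormedAddCommGroup E] [NormedSpace ℝ E] (D : ℕ) (Λ : AddSubgroup E)
    (r c : ℝ) (hr : 0 ≤ r) (hc : c ≤ 1) (h : ∀ x ∈ Λ, ‖x‖ ≤ r → x = 0) :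
    ∃ (g : Fin D → E) (L : Fin D → ℕ), (∀ i, g i ∈ Λ) ∧ Proper g L ∧
      (∀ x, Box L x → ‖∑ i, x i • g i‖ ≤ r) ∧
      c * ({x : E | x ∈ Λ ∧ ‖x‖ ≤ r}.ncard : ℝ) ≤ ∏ i, (2 * (L i : ℝ) + 1) := by
  refine ⟨fun _ => 0, fun _ => 0, fun _ => Λ.zero_mem, ?_, ?_, ?_⟩
  · intro x y hx hy _
    funext i
    have h1 : |x i| ≤ 0 := by simpa using hx i
    have h2 : |y i| ≤ 0 := by simpa using hy i
    rw [abs_nonpos_iff.1 h1, abs_nonpos_iff.1 h2]
  · intro x _
    simpa using hr
  · have h1 : {x : E | x ∈ Λ ∧ ‖x‖ ≤ r} = {0} := by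
      ext x
      constructor
      · rintro ⟨h2, h3⟩
        exact h x h2 h3
      · intro h2
        rw [Set.mem_singleton_iff] at h2
        rw [h2]
        exact ⟨Λ.zero_mem, by simpa using hr⟩
    rw [h1, Set.ncard_singleton]
    simpa using hc

theorem nat_div_bound (l M : ℕ) (hM : 1 ≤ M) :
    (2 * (l : ℝ) + 1) / (3 * M) ≤ 2 * ((l / M : ℕ) : ℝ) + 1 := by
  have hM' : (1 : ℝ) ≤ M := by exact_mod_cast hM
  rw [div_le_iff₀ (by positivity)]
  have h1 : l < M * (l / M + 1) := by
    have h2 := Nat.div_add_mod l M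
    have h3 := Nat.mod_lt l (show 0 < M by omega)
    calc l = M * (l / M) + l % M := h2.symm
      _ < M * (l / M) + M := by omega
      _ = M * (l / M + 1) := by ring
  have h2 : (l : ℝ) ≤ M * ((l / M : ℕ) + 1) := by exact_mod_cast h1.le
  have h3 : (0 : ℝ) ≤ ((l / M : ℕ) : ℝ) := Nat.cast_nonneg _
  nlinarith

/-- the elements of `Λ` on the line of a shortest vector `v` -/
theorem line {E : Type} [NormedAddCommGroup E] [NormedSpace ℝ E] (Λ : AddSubgroup E) (v : E)
    (hv : v ∈ Λ) (hv0 : v ≠ 0) (hmin : ∀ x ∈ Λ, x ≠ 0 → ‖v‖ ≤ ‖x‖) (s : ℝ) (hs : s • v ∈ Λ) :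
    s • v = (round s : ℤ) • v := by
  by_contra hne
  have ht : 0 < ‖v‖ := norm_pos_iff.2 hv0
  have h1 : s • v - (round s : ℤ) • v ∈ Λ := Λ.sub_mem hs (Λ.zsmul_mem hv _)
  have h2 := hmin _ h1 (sub_ne_zero.2 hne)
  have h3 : s • v - (round s : ℤ) • v = (s - round s) • v := by
    rw [sub_smul, Int.cast_smul_eq_zsmul]
  rw [h3, norm_smul, Real.norm_eq_abs] at h2
  have h4 := abs_sub_round s
  nlinarith

/-- **Row LAT.** -/
theorem lat : LatStmt := by
  classical
  intro D
  induction D with
  | zero =>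
    refine ⟨1, one_pos, ?_⟩
    intro E _ _ _ Λ r hD hr hfin
    have hsub : Subsingleton E := finrank_zero_iff.1 (Nat.le_zero.1 hD)
    exact trivial_case 0 Λ r 1 hr le_rfl fun x _ _ => Subsingleton.elim _ _
  | succ D ih =>
    obtain ⟨c', hc', ih⟩ := ih
    set M : ℕ := 8 * (D + 1) with hM
    have hM1 : 1 ≤ M := by omega
    have hMr : (1 : ℝ) ≤ M := by exact_mod_cast hM1
    set A : ℝ := (3 * (M : ℝ)) ^ D with hA
    have hApos : 0 < A := by positivity
    refine ⟨min 1 (c' / (15 * A)), lt_min one_pos (by positivity), ?_⟩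
    intro E _ _ _ Λ r hD hr hfin
    by_cases htriv : ∀ x ∈ Λ, ‖x‖ ≤ r → x = 0
    · exact trivial_case (D + 1) Λ r _ hr (min_le_left _ _) htriv
    push Not at htriv
    obtain ⟨x0, hx0, hx0r, hx00⟩ := htriv
    -- the shortest vector
    obtain ⟨v, hv, hv0, hvr, hmin⟩ : ∃ v ∈ Λ, v ≠ 0 ∧ ‖v‖ ≤ r ∧
        ∀ x ∈ Λ, x ≠ 0 → ‖v‖ ≤ ‖x‖ := by
      have hf : {x : E | (x ∈ Λ ∧ ‖x‖ ≤ r) ∧ x ≠ 0}.Finite :=
        (hfin r).subset fun x hx => hx.1
      obtain ⟨v, hv, hv2⟩ := hf.toFinset.exists_min_image (fun x => ‖x‖)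
        ⟨x0, hf.mem_toFinset.2 ⟨⟨hx0, hx0r⟩, hx00⟩⟩
      have hv3 := hf.mem_toFinset.1 hv
      refine ⟨v, hv3.1.1, hv3.2, hv3.1.2, ?_⟩
      intro x hx hxne
      by_cases hxr : ‖x‖ ≤ r
      · exact hv2 x (hf.mem_toFinset.2 ⟨⟨hx, hxr⟩, hxne⟩)
      · exact hv3.1.2.trans (not_le.1 hxr).le
    set t : ℝ := ‖v‖ with ht
    have htpos : 0 < t := norm_pos_iff.2 hv0
    have hrpos : 0 < r := htpos.trans_le hvr
    obtain ⟨E', i1, i2, i3, π, hker, hlift, hle, hrk⟩ := exists_quot E v hv0
    set Λ' : AddSubgroup E' := Λ.map π.toAddMonoidHom with hΛ'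
    -- the lift
    have hL : ∀ x' ∈ Λ', ∃ x ∈ Λ, π x = x' ∧ ‖x‖ ≤ ‖x'‖ + 3 * t / 4 := by
      rintro x' ⟨y, hy, hyx⟩
      have hyx' : π y = x' := hyx
      obtain ⟨m, hm1, hm2⟩ := hlift x' (t / 4) (by positivity)
      obtain ⟨s, hs⟩ := (hker (y - m)).1 (by rw [map_sub, hyx', hm1, sub_self])
      refine ⟨y - (round s : ℤ) • v, Λ.sub_mem hy (Λ.zsmul_mem hv _), ?_, ?_⟩
      · have h1 : π v = 0 := (hker v).2 ⟨1, (one_smul _ _).symm⟩
        rw [map_sub, map_zsmul, h1, smul_zero, sub_zero, hyx']
      · have h1 : y - (round s : ℤ) • v = m + (s - round s) • v := by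
          rw [sub_smul, Int.cast_smul_eq_zsmul, ← hs]
          abel
        rw [h1]
        have h2 := norm_add_le m ((s - round s) • v)
        rw [norm_smul, Real.norm_eq_abs, ← ht] at h2
        have h3 := abs_sub_round s
        have h4 : |s - round s| * t ≤ 1 / 2 * t := mul_le_mul_of_nonneg_right h3 htpos.le
        linarith
    have hfin' : ∀ ρ : ℝ, {x : E' | x ∈ Λ' ∧ ‖x‖ ≤ ρ}.Finite := by
      intro ρ
      apply ((hfin (ρ + 3 * t / 4)).image π).subset
      rintro x' ⟨h1, h2⟩
      obtain ⟨x, hx, hx1, hx2⟩ := hL x' h1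
      exact ⟨x, ⟨hx, hx2.trans (by linarith)⟩, hx1⟩
    obtain ⟨g', L', hg', hprop, hball, hsize⟩ := ih E' Λ' r (by omega) hr hfin'
    -- lifts of the steps
    have hg : ∀ i, ∃ x ∈ Λ, π x = g' i ∧ ((L' i / M : ℕ) : ℝ) * ‖x‖ ≤ r / (2 * (D + 1)) := by
      intro i
      obtain ⟨x, hx, hx1, hx2⟩ := hL (g' i) (hg' i)
      refine ⟨x, hx, hx1, ?_⟩
      rcases Nat.eq_zero_or_pos (L' i) with h0 | h0
      · rw [h0, Nat.zero_div, Nat.cast_zero, zero_mul]
        positivity
      have hgi : g' i ≠ 0 := by
        intro h1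
        have h2 := hprop (Pi.single i 1) 0 (by
          intro j
          by_cases hj : j = i
          · subst hj
            rw [Pi.single_eq_same, abs_one]
            exact_mod_cast h0
          · rw [Pi.single_eq_of_ne hj, abs_zero]
            exact Int.natCast_nonneg _) (by
          intro j
          rw [Pi.zero_apply, abs_zero]
          exact Int.natCast_nonneg _) (by
          rw [Finset.sum_eq_single i]
          · rw [h1, smul_zero]
            simp
          · intro j _ hj
            rw [Pi.single_eq_of_ne hj, zero_smul]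
          · intro h
            exact absurd (Finset.mem_univ i) h)
        have h3 := congrFun h2 i
        rw [Pi.single_eq_same, Pi.zero_apply] at h3
        exact one_ne_zero h3
      have hxne : x ≠ 0 := by
        rintro rfl
        rw [map_zero] at hx1
        exact hgi hx1.symm
      have h4 := hmin x hx hxne
      have h5 : ‖x‖ ≤ 4 * ‖g' i‖ := by linarith
      have h6 : (L' i : ℝ) * ‖g' i‖ ≤ r := by
        have h7 := hball (Pi.single i (L' i : ℤ)) (by
          intro j
          by_cases hj : j = i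
          · subst hj
            rw [Pi.single_eq_same, abs_of_nonneg (Int.natCast_nonneg _)]
          · rw [Pi.single_eq_of_ne hj, abs_zero]
            exact Int.natCast_nonneg _)
        rw [Finset.sum_eq_single i] at h7
        · rw [Pi.single_eq_same, natCast_zsmul, ← Nat.cast_smul_eq_nsmul ℝ, norm_smul,
            Real.norm_natCast] at h7
          exact h7
        · intro j _ hj
          rw [Pi.single_eq_of_ne hj, zero_smul]
        · intro h
          exact absurd (Finset.mem_univ i) h
      have h8 : ((L' i / M : ℕ) : ℝ) ≤ (L' i : ℝ) / M := Nat.cast_div_le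
      calc ((L' i / M : ℕ) : ℝ) * ‖x‖ ≤ ((L' i : ℝ) / M) * (4 * ‖g' i‖) :=
            mul_le_mul h8 h5 (norm_nonneg _) (by positivity)
        _ = 4 / M * ((L' i : ℝ) * ‖g' i‖) := by ring
        _ ≤ 4 / M * r := mul_le_mul_of_nonneg_left h6 (by positivity)
        _ = r / (2 * (D + 1)) := by
            rw [hM]
            push_cast
            field_simp
            ring
    choose g hgΛ hgπ hgn using hg
    set k0 : ℕ := ⌊r / (2 * t)⌋₊ with hk0
    have hk0t : (k0 : ℝ) * t ≤ r / 2 := by
      have h1 : (k0 : ℝ) ≤ r / (2 * t) := Nat.floor_le (by positivity)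
      calc (k0 : ℝ) * t ≤ r / (2 * t) * t := mul_le_mul_of_nonneg_right h1 htpos.le
        _ = r / 2 := by field_simp
    refine ⟨Fin.cons v g, Fin.cons k0 fun i => L' i / M, ?_, ?_, ?_, ?_⟩
    · intro i
      refine Fin.cases ?_ ?_ i
      · exact hv
      · intro j
        exact hgΛ j
    · intro x y hx hy hxy
      rw [Fin.sum_univ_succ, Fin.sum_univ_succ] at hxy
      simp only [Fin.cons_zero, Fin.cons_succ] at hxy
      have hπv : π v = 0 := (hker v).2 ⟨1, (one_smul _ _).symm⟩
      have h1 := congrArg π hxy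
      simp only [map_add, map_sum, map_zsmul, hπv, hgπ, smul_zero, zero_add] at h1
      have hb : ∀ z : Fin (D + 1) → ℤ, Box (Fin.cons k0 fun i => L' i / M) z →
          Box L' (fun i => z i.succ) := by
        intro z hz i
        have h2 := hz i.succ
        rw [Fin.cons_succ] at h2
        refine h2.trans ?_
        exact_mod_cast Nat.div_le_self _ _
      have h2 := hprop (fun i => x i.succ) (fun i => y i.succ) (hb x hx) (hb y hy) h1
      have h3 : ∀ i : Fin D, x i.succ = y i.succ := fun i => congrFun h2 i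
      have h4 : x 0 • v = y 0 • v := by
        have h5 : ∑ i : Fin D, x i.succ • g i = ∑ i : Fin D, y i.succ • g i :=
          Finset.sum_congr rfl fun i _ => by rw [h3 i]
        rw [h5] at hxy
        exact add_right_cancel hxy
      have h5 : x 0 = y 0 := by
        rw [← Int.cast_smul_eq_zsmul ℝ, ← Int.cast_smul_eq_zsmul ℝ] at h4
        have h6 := smul_left_injective ℝ hv0 h4
        exact_mod_cast h6
      funext i
      refine Fin.cases h5 ?_ i
      intro j
      exact h3 j
    · intro x hx
      rw [Fin.sum_univ_succ]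
      simp only [Fin.cons_zero, Fin.cons_succ]
      have h1 : ‖x 0 • v‖ ≤ r / 2 := by
        rw [← Int.cast_smul_eq_zsmul ℝ, norm_smul, Real.norm_eq_abs]
        have h2 := hx 0
        rw [Fin.cons_zero] at h2
        have h3 : |(x 0 : ℝ)| ≤ k0 := by exact_mod_cast h2
        exact (mul_le_mul_of_nonneg_right h3 htpos.le).trans hk0t
      have h2 : ‖∑ i : Fin D, x i.succ • g i‖ ≤ r / 2 := by
        refine (norm_sum_le _ _).trans ?_
        have h3 : ∀ i ∈ (Finset.univ : Finset (Fin D)), ‖x i.succ • g i‖ ≤ r / (2 * (D + 1)) := by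
          intro i _
          rw [← Int.cast_smul_eq_zsmul ℝ, norm_smul, Real.norm_eq_abs]
          have h4 := hx i.succ
          rw [Fin.cons_succ] at h4
          have h5 : |(x i.succ : ℝ)| ≤ ((L' i / M : ℕ) : ℝ) := by
            have h4' : ((|x i.succ| : ℤ) : ℝ) ≤ (((L' i / M : ℕ) : ℤ) : ℝ) := Int.cast_le.2 h4
            rw [Int.cast_abs, Int.cast_natCast] at h4'
            exact h4'
          exact (mul_le_mul_of_nonneg_right h5 (norm_nonneg _)).trans (hgn i)
        refine (Finset.sum_le_sum h3).trans ?_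
        rw [Finset.sum_const, Finset.card_univ, Fintype.card_fin, nsmul_eq_mul]
        have hD1 : (0 : ℝ) < 2 * ((D : ℝ) + 1) := by positivity
        rw [mul_div_assoc', div_le_iff₀ hD1]
        nlinarith
      exact (norm_add_le _ _).trans (by linarith)
    · -- the size
      rw [Fin.prod_univ_succ]
      simp only [Fin.cons_zero, Fin.cons_succ]
      -- the count
      set N : ℝ := ({x : E | x ∈ Λ ∧ ‖x‖ ≤ r}.ncard : ℝ) with hN
      set N' : ℝ := ({x : E' | x ∈ Λ' ∧ ‖x‖ ≤ r}.ncard : ℝ) with hN'
      have hcount : N ≤ 5 * r / t * N' := by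
        set s : Finset E := (hfin r).toFinset with hs
        set s' : Finset E' := (hfin' r).toFinset with hs'
        set k : ℕ := ⌊2 * r / t⌋₊ with hk
        have hfib : ∀ a ∈ s.image π, (s.filter fun x => π x = a).card ≤ 2 * k + 1 := by
          intro a ha
          obtain ⟨x1, hx1, hx1a⟩ := Finset.mem_image.1 ha
          have hx1' := (hfin r).mem_toFinset.1 hx1
          have hcard : (Finset.Icc (-(k : ℤ)) k).card = 2 * k + 1 := by
            rw [Int.card_Icc]
            omega
          rw [← hcard]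
          have hdiff : ∀ x ∈ s.filter (fun x => π x = a), ∃ m : ℤ, x = x1 + m • v ∧
              |m| ≤ (k : ℤ) := by
            intro x hx
            obtain ⟨hx2, hx3⟩ := Finset.mem_filter.1 hx
            have hx2' := (hfin r).mem_toFinset.1 hx2
            obtain ⟨σ, hσ⟩ := (hker (x - x1)).1 (by rw [map_sub, hx3, hx1a, sub_self])
            have h1 : σ • v ∈ Λ := by
              rw [← hσ]
              exact Λ.sub_mem hx2'.1 hx1'.1
            have h2 := line Λ v hv hv0 hmin σ h1
            refine ⟨round σ, ?_, ?_⟩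
            · rw [← h2, ← hσ]
              abel
            · have h3 : ‖x - x1‖ ≤ 2 * r := by
                refine (norm_sub_le _ _).trans ?_
                linarith [hx2'.2, hx1'.2]
              rw [hσ, h2, ← Int.cast_smul_eq_zsmul ℝ, norm_smul, Real.norm_eq_abs] at h3
              have h4 : |((round σ : ℤ) : ℝ)| ≤ 2 * r / t := by
                rw [le_div_iff₀ htpos]
                exact h3
              have h5 : ((|round σ|.toNat : ℕ) : ℝ) ≤ 2 * r / t := by
                have h6 : (((|round σ|.toNat : ℕ) : ℤ) : ℝ) = |((round σ : ℤ) : ℝ)| := by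
                  rw [Int.toNat_of_nonneg (abs_nonneg _)]
                  push_cast
                  rfl
                rw [Int.cast_natCast] at h6
                rw [h6]
                exact h4
              have h7 : |round σ|.toNat ≤ k := Nat.le_floor h5
              have h8 := Int.toNat_of_nonneg (abs_nonneg (round σ))
              omega
          choose! μ hμ1 hμ2 using hdiff
          apply Finset.card_le_card_of_injOn μ
          · intro x hx
            have h1 := hμ2 x hx
            rw [Finset.coe_Icc, Set.mem_Icc]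
            exact abs_le.1 h1
          · intro x hx y hy hxy
            rw [hμ1 x hx, hμ1 y hy, hxy]
        have h1 := Finset.card_le_mul_card_image s (2 * k + 1) hfib
        have h2 : s.image π ⊆ s' := by
          intro a ha
          obtain ⟨x, hx, hxa⟩ := Finset.mem_image.1 ha
          have hx' := (hfin r).mem_toFinset.1 hx
          rw [hs', Set.Finite.mem_toFinset]
          refine ⟨⟨x, hx'.1, hxa⟩, ?_⟩
          rw [← hxa]
          exact (hle x).trans hx'.2
        have h3 : N = (s.card : ℝ) := by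
          rw [hN, hs, Set.ncard_eq_toFinset_card _ (hfin r)]
        have h4 : N' = (s'.card : ℝ) := by
          rw [hN', hs', Set.ncard_eq_toFinset_card _ (hfin' r)]
        have h5 : (s.card : ℝ) ≤ (2 * (k : ℝ) + 1) * s'.card := by
          have h6 : s.card ≤ (2 * k + 1) * s'.card :=
            h1.trans (Nat.mul_le_mul_left _ (Finset.card_le_card h2))
          exact_mod_cast h6
        have h6 : 2 * (k : ℝ) + 1 ≤ 5 * r / t := by
          have h7 : (k : ℝ) ≤ 2 * r / t := Nat.floor_le (by positivity)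
          have h8 : 1 ≤ r / t := by
            rw [le_div_iff₀ htpos, one_mul]
            exact hvr
          have h9 : 5 * r / t = 2 * (2 * r / t) + r / t := by ring
          rw [h9]
          linarith
        rw [h3, h4]
        exact h5.trans (mul_le_mul_of_nonneg_right h6 (Nat.cast_nonneg _))
      have hN'0 : 0 ≤ N' := Nat.cast_nonneg _
      have hN0 : 0 ≤ N := Nat.cast_nonneg _
      -- the factors
      have hf0 : r / (3 * t) ≤ 2 * (k0 : ℝ) + 1 := by
        have h1 : r / (2 * t) < k0 + 1 := Nat.lt_floor_add_one _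
        have h2 : r / (3 * t) = 2 / 3 * (r / (2 * t)) := by
          field_simp
        rw [h2]
        have h3 : (0 : ℝ) ≤ k0 := Nat.cast_nonneg _
        linarith
      have hf1 : (∏ i : Fin D, (2 * (L' i : ℝ) + 1)) / A ≤
          ∏ i : Fin D, (2 * ((L' i / M : ℕ) : ℝ) + 1) := by
        have h1 : (∏ i : Fin D, (2 * (L' i : ℝ) + 1)) / A =
            ∏ i : Fin D, ((2 * (L' i : ℝ) + 1) / (3 * M)) := by
          rw [Finset.prod_div_distrib, Finset.prod_const, Finset.card_univ, Fintype.card_fin]
        rw [h1]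
        apply Finset.prod_le_prod
        · intro i _
          positivity
        · intro i _
          exact nat_div_bound (L' i) M hM1
      have hP' : 0 ≤ (∏ i : Fin D, (2 * (L' i : ℝ) + 1)) / A :=
        div_nonneg (Finset.prod_nonneg fun i _ => by positivity) hApos.le
      calc min 1 (c' / (15 * A)) * N ≤ c' / (15 * A) * N :=
            mul_le_mul_of_nonneg_right (min_le_right _ _) hN0
        _ ≤ c' / (15 * A) * (5 * r / t * N') :=
            mul_le_mul_of_nonneg_left hcount (by positivity)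
        _ = r / (3 * t) * ((c' * N') / A) := by
            field_simp
            ring
        _ ≤ r / (3 * t) * ((∏ i : Fin D, (2 * (L' i : ℝ) + 1)) / A) := by
            apply mul_le_mul_of_nonneg_left _ (by positivity)
            exact div_le_div_of_nonneg_right hsize hApos.le
        _ ≤ (2 * (k0 : ℝ) + 1) * ∏ i : Fin D, (2 * ((L' i / M : ℕ) : ℝ) + 1) :=
            mul_le_mul hf0 hf1 hP' (by positivity)

end Pool.Agent.FRE.H86
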